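import Pool.Agent.P.MP_0bb74b_gt.Dep.Poly

/-! The word of Bigelow in a Hecke algebra on five strands, modulo the ideal of two cups. -/

namespace Pool.Agent.P.MP_0bb74b_gt.Dep

open Finset

variable {K R : Type*} [Field K] [Ring R] [Algebra K R]

/-- the Hecke relations for `1 + f i`, `i < 4` -/
structure Rel (y : K) (f : ℕ → R) : Prop where
  sq : ∀ i < 4, f i * f i = (-1 - y) • f i
  far : ∀ i j, i + 2 ≤ j → j < 4 → f i * f j = f j * f i
  adj : ∀ i, i + 1 < 4 →
    f i * f (i + 1) * f i - y • f i = f (i + 1) * f i * f (i + 1) - y • f (i + 1)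

/-- a left stable subspace that contains all multiples of two cups -/
structure Stab (f : ℕ → R) (W : Submodule K R) : Prop where
  mul : ∀ i < 4, ∀ x ∈ W, f i * x ∈ W
  two : ∀ i j, i + 2 ≤ j → j < 4 → ∀ v, f i * (f j * v) ∈ W

theorem tl_mod {y : K} (hy : y ≠ 0) (hy1 : -1 - y ≠ 0) {W : Submodule K R} {p q r : R}
    (hp : ∀ x ∈ W, p * x ∈ W) (hq : ∀ x ∈ W, q * x ∈ W) (hpr : ∀ v, p * (r * v) ∈ W)
    (qq : q * q = (-1 - y) • q) (h1 : p * q * p - y • p = q * p * q - y • q)
    (h2 : q * r * q - y • q = r * q * r - y • r) (x : R) : (p * q * p - y • p) * x ∈ W := by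
  set F := p * q * p - y • p with hF
  have Fr : ∀ v, F * (r * v) ∈ W := fun v => by
    have : F * (r * v) = p * (q * (p * (r * v))) - y • (p * (r * v)) := by
      rw [hF, sub_mul, smul_mul_assoc]; simp only [mul_assoc]
    rw [this]
    exact W.sub_mem (hp _ (hq _ (hpr v))) (W.smul_mem _ (hpr v))
  have Fq : F * q = (-1 - y) • F := by
    rw [h1, sub_mul, smul_mul_assoc, mul_assoc, qq, mul_smul_comm, smul_sub, smul_comm y]
  have a1 : F * ((r * q * r - y • r) * x) ∈ W := by
    have : (r * q * r - y • r) * x = r * (q * r * x - y • x) := by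
      rw [sub_mul, mul_sub, smul_mul_assoc, mul_smul_comm]; simp only [mul_assoc]
    rw [this]; exact Fr _
  have a2 : F * ((r * q * r - y • r) * x) =
      (-1 - y) • (F * (r * (q * x))) - (y * (-1 - y)) • (F * x) := by
    have : (q * r * q - y • q) * x = q * (r * (q * x) - y • x) := by
      rw [sub_mul, mul_sub, smul_mul_assoc, mul_smul_comm]; simp only [mul_assoc]
    rw [← h2, this, ← mul_assoc, Fq, smul_mul_assoc, mul_sub, smul_sub, mul_smul_comm, smul_smul,
      mul_comm y]
  rw [a2] at a1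
  have a3 := W.sub_mem (W.smul_mem (-1 - y) (Fr (q * x))) a1
  rw [sub_sub_cancel] at a3
  exact (W.smul_mem_iff (mul_ne_zero hy hy1)).1 a3

section
variable {y : K} {f : ℕ → R} {W : Submodule K R}

theorem Stab.two' (h : Rel y f) (s : Stab f W) {i j : ℕ} (hi : i < 4) (hij : j + 2 ≤ i) (v : R) :
    f i * (f j * v) ∈ W := by
  rw [← mul_assoc, ← h.far j i hij hi, mul_assoc]; exact s.two j i hij hi v

theorem up_mod (hy : y ≠ 0) (hy1 : -1 - y ≠ 0) (h : Rel y f) (s : Stab f W) {i : ℕ}
    (hi : i + 1 < 4) (x : R) : (f i * f (i + 1) * f i - y • f i) * x ∈ W := by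
  by_cases h2 : i + 2 < 4
  · exact tl_mod hy hy1 (s.mul i (by omega)) (s.mul _ hi) (s.two i (i + 2) le_rfl h2) (h.sq _ hi)
      (h.adj i hi) (h.adj (i + 1) h2) x
  · obtain rfl : i = 2 := by omega
    rw [h.adj 2 hi]
    exact tl_mod hy hy1 (s.mul 3 hi) (s.mul 2 (by omega)) (s.two' h (j := 1) hi le_rfl)
      (h.sq 2 (by omega)) (h.adj 2 hi).symm (h.adj 1 (by omega)).symm x

theorem up_mod1 (hy : y ≠ 0) (hy1 : -1 - y ≠ 0) (h : Rel y f) (s : Stab f W) {i : ℕ}
    (hi : i + 1 < 4) (x : R) : f i * (f (i + 1) * (f i * x)) - y • (f i * x) ∈ W := by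
  simpa only [sub_mul, smul_mul_assoc, mul_assoc] using up_mod hy hy1 h s hi x

theorem up_mod2 (hy : y ≠ 0) (hy1 : -1 - y ≠ 0) (h : Rel y f) (s : Stab f W) {i : ℕ}
    (hi : i + 1 < 4) (x : R) :
    f (i + 1) * (f i * (f (i + 1) * x)) - y • (f (i + 1) * x) ∈ W := by
  have := up_mod hy hy1 h s hi x
  rw [h.adj i hi] at this
  simpa only [sub_mul, smul_mul_assoc, mul_assoc] using this

end

/-- the tail of the path from `j` to `l` -/
def tl (f : ℕ → R) (l j : ℕ) : R :=
  if l ≤ j then ((List.range' l (j - l)).reverse.map f).prod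
  else ((List.range' (j + 1) (l - j)).map f).prod

/-- the path from `j` to `l` -/
def pa (f : ℕ → R) (l j : ℕ) : R := f j * tl f l j

theorem tl_up (f : ℕ → R) {l j : ℕ} (h : l ≤ j) : tl f l (j + 1) = pa f l j := by
  obtain ⟨d, rfl⟩ := Nat.exists_eq_add_of_le h
  simp only [pa, tl, if_pos h, if_pos (Nat.le_succ_of_le h)]
  rw [show l + d + 1 - l = d + 1 by omega, show l + d - l = d by omega, List.range'_concat]
  simp

theorem tl_down (f : ℕ → R) {l j : ℕ} (h : j < l) : tl f l j = pa f l (j + 1) := by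
  obtain ⟨d, rfl⟩ := Nat.exists_eq_add_of_lt h
  simp only [pa, tl, if_neg (not_le.2 h)]
  rw [show j + d + 1 - j = d + 1 by omega, List.range'_succ]
  split_ifs with h2
  · obtain rfl : d = 0 := by omega
    simp
  · rw [show j + d + 1 - (j + 1) = d by omega]
    simp

theorem pa_self (f : ℕ → R) (l : ℕ) : pa f l l = f l := by simp [pa, tl]

theorem mul_pa {y : K} {f : ℕ → R} {W : Submodule K R} (hy : y ≠ 0) (hy1 : -1 - y ≠ 0)
    (h : Rel y f) (s : Stab f W) (l : ℕ) {i j : ℕ} (hi : i < 4) (hj : j < 4) :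
    f i * pa f l j - pev y (gp l i j) • pa f l i ∈ W := by
  unfold gp
  split_ifs with h1 h2 h3
  · subst h1
    rw [pa, ← mul_assoc, h.sq i hi, smul_mul_assoc]
    simp [sub_eq_add_neg]
  · rcases h2 with ⟨rfl, h2⟩ | ⟨rfl, h2⟩
    · rw [← tl_up f h2]; simp [pa]
    · rw [← tl_down f h2]; simp [pa]
  · have e : pev y [0, 1] = y := by simp
    rw [e]
    rcases h3 with rfl | rfl
    · have : j < l := by omega
      rw [pa, tl_down f this, pa]
      exact up_mod2 hy hy1 h s hi _
    · have : l ≤ i := by omega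
      rw [pa, tl_up f this, pa]
      exact up_mod1 hy hy1 h s hj _
  · rw [pev_nil, zero_smul, sub_zero, pa]
    rcases Nat.lt_or_ge i j with h4 | h4
    · exact s.two i j (by omega) hj _
    · exact s.two' h hi (by omega) _

/-- the value of a letter -/
def lt (y : K) (f : ℕ → R) (x : ℕ × Bool) : R := (if x.2 then (1 : K) else y) • (1 : R) + f x.1

/-- the value of a state -/
def val (y : K) (f : ℕ → R) (S : List ℤ × List (List (List ℤ))) : R :=
  pev y S.1 • (1 : R) + ∑ l ∈ range 4, ∑ j ∈ range 4, pev y (ent S.2 l j) • pa f l j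

theorem pev_sc (y : K) (b : Bool) (p : List ℤ) :
    pev y (sc b p) = (if b then 1 else y) * pev y p := by
  cases b <;> simp [sc]

theorem val_step (y : K) (f : ℕ → R) (x : ℕ × Bool) (hx : x.1 < 4)
    (S : List ℤ × List (List (List ℤ))) :
    val y f (step x S) = (if x.2 then (1 : K) else y) • val y f S + (pev y S.1 • f x.1 +
      ∑ l ∈ range 4, ∑ j ∈ range 4, pev y (ent S.2 l j) • pev y (gp l x.1 j) • pa f l x.1) := by
  have e : ∀ l ∈ range 4, ∑ j ∈ range 4, pev y (ent (step x S).2 l j) • pa f l j =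
      (if x.2 then (1 : K) else y) • ∑ j ∈ range 4, pev y (ent S.2 l j) • pa f l j +
        ((if l = x.1 then pev y S.1 • pa f l x.1 else 0) +
        ∑ j ∈ range 4, pev y (ent S.2 l j) • pev y (gp l x.1 j) • pa f l x.1) := by
    intro l hl
    have e1 : ∀ j ∈ range 4, pev y (ent (step x S).2 l j) • pa f l j =
        (if x.2 then (1 : K) else y) • pev y (ent S.2 l j) • pa f l j +
          if j = x.1 then pev y (row x.1 l S.1 S.2) • pa f l j else 0 := by
      intro j hj
      rw [step, ent_tab _ (mem_range.1 hl) (mem_range.1 hj)]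
      by_cases hjx : j = x.1
      · simp only [if_pos hjx, pev_padd, pev_sc, add_smul, smul_smul]
      · simp only [if_neg hjx, pev_sc, smul_smul, add_zero]
    rw [sum_congr rfl e1, sum_add_distrib, ← smul_sum, sum_ite_eq' (range 4) x.1,
      if_pos (mem_range.2 hx)]
    congr 1
    simp only [row, pev_padd, pev_pmul, sum_range_succ, range_zero, sum_empty, add_smul, smul_smul,
      apply_ite (pev y), pev_nil, ite_smul, zero_smul, zero_add, mul_comm (pev y (gp _ _ _))]
    abel
  rw [val, sum_congr rfl e, sum_add_distrib, sum_add_distrib, sum_ite_eq' (range 4) x.1,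
    if_pos (mem_range.2 hx), pa_self, ← smul_sum, val, smul_add, smul_smul]
  simp only [step, pev_sc]
  abel

theorem run_mod {y : K} {f : ℕ → R} {W : Submodule K R} (hy : y ≠ 0) (hy1 : -1 - y ≠ 0)
    (h : Rel y f) (s : Stab f W) : ∀ w : List (ℕ × Bool), (∀ x ∈ w, x.1 < 4) →
    (w.map (lt y f)).prod - val y f (run w) ∈ W
  | [], _ => by simp [run, val, ent]
  | x :: w, hw => by
    have ih := run_mod hy hy1 h s w fun z hz => hw z (List.mem_cons_of_mem _ hz)
    have hx := hw x List.mem_cons_self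
    have e : run (x :: w) = step x (run w) := rfl
    rw [List.map_cons, List.prod_cons, e, val_step y f x hx]
    set P := (w.map (lt y f)).prod
    set S := run w
    have a1 : lt y f x * (P - val y f S) ∈ W := by
      rw [lt, add_mul, smul_mul_assoc, one_mul]
      exact W.add_mem (W.smul_mem _ ih) (s.mul _ hx _ ih)
    have a2 : ∑ l ∈ range 4, ∑ j ∈ range 4, pev y (ent S.2 l j) •
        (f x.1 * pa f l j - pev y (gp l x.1 j) • pa f l x.1) ∈ W :=
      W.sum_mem fun l _ => W.sum_mem fun j hj =>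
        W.smul_mem _ (mul_pa hy hy1 h s l hx (mem_range.1 hj))
    convert W.add_mem a1 a2 using 1
    have a3 : f x.1 * val y f S = pev y S.1 • f x.1 +
        ∑ l ∈ range 4, ∑ j ∈ range 4, pev y (ent S.2 l j) • (f x.1 * pa f l j) := by
      simp only [val, mul_add, mul_sum, mul_smul_comm, mul_one]
    simp only [smul_sub, sum_sub_distrib]
    rw [mul_sub, lt, add_mul _ _ (val y f S), a3, smul_mul_assoc, one_mul]
    abel

theorem pev_run (y : K) : ∀ w : List (ℕ × Bool),
    pev y (run w).1 = y ^ w.countP (fun x => !x.2)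
  | [] => by simp [run]
  | (i, b) :: w => by
    have e : (run ((i, b) :: w)).1 = sc b (run w).1 := rfl
    rw [e, pev_sc, pev_run y w]
    cases b <;> simp [pow_succ']

theorem chk_mod {y : K} {f : ℕ → R} {W : Submodule K R} (hy : y ≠ 0) (hy1 : -1 - y ≠ 0)
    (h : Rel y f) (s : Stab f W) {w : List (ℕ × Bool)} (hw : chk w = true) :
    (w.map (lt y f)).prod - y ^ w.countP (fun x => !x.2) • (1 : R) ∈ W := by
  simp only [chk, Bool.and_eq_true, List.all_eq_true, decide_eq_true_eq] at hw
  have := run_mod hy hy1 h s w hw.1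
  have z : ∀ l j, pev y (ent (run w).2 l j) = 0 := fun l j => by
    unfold ent
    rcases lt_or_ge l (run w).2.length with hl | hl
    · rw [List.getD_eq_getElem _ _ hl]
      rcases lt_or_ge j ((run w).2[l]).length with hj | hj
      · rw [List.getD_eq_getElem _ _ hj]
        exact pev_zero y _ (List.all_eq_true.2 (hw.2 _ (List.getElem_mem hl) _ (List.getElem_mem hj)))
      · rw [List.getD_eq_default _ _ hj]; rfl
    · rw [List.getD_eq_default _ _ hl]; rfl
  simpa only [val, z, zero_smul, sum_const_zero, add_zero, pev_run] using this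

end Pool.Agent.P.MP_0bb74b_gt.Dep
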