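import Mathlib

/-! The braid groups by the presentation of Artin. -/

namespace Pool.Agent.P.MP_0bb74b_gt.Dep

/-- The braid relations; the generator `i` stands for `σ_{i+1}`. -/
def rels (n : ℕ) : Set (FreeGroup (Fin (n - 1))) :=
  {r | ∃ i j : Fin (n - 1),
    (i.val + 1 < j.val ∧ r = .of i * .of j * (.of j * .of i)⁻¹) ∨
    (i.val + 1 = j.val ∧ r = .of i * .of j * .of i * (.of j * .of i * .of j)⁻¹)}

/-- The braid group `B_n`. -/
abbrev Braid (n : ℕ) : Type := PresentedGroup (rels n)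

/-- The generator `σ_{i+1}` for `i < n - 1` (and `1` for larger `i`). -/
def σ (n i : ℕ) : Braid n := if h : i < n - 1 then PresentedGroup.of ⟨i, h⟩ else 1

theorem σ_of {n i : ℕ} (h : i < n - 1) : σ n i = PresentedGroup.of ⟨i, h⟩ := dif_pos h

theorem σ_far {n i j : ℕ} (h : i + 1 < j) (hj : j < n - 1) : σ n i * σ n j = σ n j * σ n i := by
  rw [σ_of hj, σ_of (show i < n - 1 by omega), ← mul_inv_eq_one]
  exact PresentedGroup.one_of_mem (rels := rels n) ⟨⟨i, by omega⟩, ⟨j, hj⟩, Or.inl ⟨h, rfl⟩⟩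

theorem σ_adj {n i : ℕ} (hj : i + 1 < n - 1) :
    σ n i * σ n (i + 1) * σ n i = σ n (i + 1) * σ n i * σ n (i + 1) := by
  rw [σ_of hj, σ_of (show i < n - 1 by omega), ← mul_inv_eq_one]
  exact PresentedGroup.one_of_mem (rels := rels n) ⟨⟨i, by omega⟩, ⟨i + 1, hj⟩, Or.inr ⟨rfl, rfl⟩⟩

/-- a homomorphism from elements that satisfy the braid relations -/
def hom {G : Type*} [Group G] (n : ℕ) (g : ℕ → G)
    (h1 : ∀ i j, i + 1 < j → j < n - 1 → g i * g j = g j * g i)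
    (h2 : ∀ i, i + 1 < n - 1 → g i * g (i + 1) * g i = g (i + 1) * g i * g (i + 1)) :
    Braid n →* G :=
  PresentedGroup.toGroup (f := fun i : Fin (n - 1) => g i) (by
    rintro r ⟨i, j, ⟨h, rfl⟩ | ⟨h, rfl⟩⟩ <;>
      simp only [map_mul, map_inv, FreeGroup.lift_apply_of, mul_inv_eq_one]
    · exact h1 _ _ h j.2
    · rw [← h]; exact h2 _ (h ▸ j.2))

theorem hom_σ {G : Type*} [Group G] {n : ℕ} {g : ℕ → G} (h1 h2) {i : ℕ} (h : i < n - 1) :
    hom n g h1 h2 (σ n i) = g i := by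
  rw [σ_of h, hom, PresentedGroup.toGroup.of]

end Pool.Agent.P.MP_0bb74b_gt.Dep
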