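import Pool.Agent.P.MP_0bb74b_gt.Dep.Braid

/-! The Temperley-Lieb modules `V^n_m` and the action of the braid group on them. -/

namespace Pool.Agent.P.MP_0bb74b_gt.Dep

/-- Crossingless diagrams with `N` end points `0, …, N - 1` in cyclic order: `p x` is the other
end of the arc at `x` (and `p x = x` for `x ≥ N`). -/
def Diag (N : ℕ) : Type :=
  {p : ℕ → ℕ // (∀ x, p (p x) = x) ∧ (∀ x, p x = x ↔ N ≤ x) ∧
    ∀ a b, a < b → b < p a → a < p b ∧ p b < p a}

/-- `e_{i+1}` placed on top: the points `i`, `i + 1` are joined, and so are their old partners. -/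
def stk (i : ℕ) (p : ℕ → ℕ) (x : ℕ) : ℕ :=
  if x = i then i + 1 else if x = i + 1 then i else if x = p i then p (i + 1)
    else if x = p (i + 1) then p i else p x

theorem stk_inv {i : ℕ} {p : ℕ → ℕ} (h1 : ∀ x, p (p x) = x) (a : p i ≠ i) (b : p (i + 1) ≠ i + 1)
    (x : ℕ) : stk i p (stk i p x) = x := by
  have := h1 i
  have := h1 (i + 1)
  have := h1 x
  unfold stk
  grind

theorem stk_nc {i : ℕ} {p : ℕ → ℕ} (h1 : ∀ x, p (p x) = x) (d : p (i + 1) ≠ i + 1)
    (h3 : ∀ a b, a < b → b < p a → a < p b ∧ p b < p a) (a b : ℕ) (hab : a < b)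
    (hb : b < stk i p a) : a < stk i p b ∧ stk i p b < stk i p a := by
  have inj : ∀ x y, p x = y → p y = x := fun x y e => by rw [← e, h1]
  have inj' : ∀ x y, p x = p y → x = y := fun x y e => by rw [← h1 x, e, h1]
  have f1 := h3 a b
  have f2 := h3 a i
  have f3 := h3 a (i + 1)
  have f4 := h3 (p i) b
  have f5 := h3 (i + 1) b
  have f6 := h3 i b
  have f7 := h3 (p (i + 1)) b
  have f8 := h3 (i + 1) (p b)
  have f9 := h3 (p i) (p b)
  have f10 := h3 i (i + 1)
  have f11 := h3 (p (i + 1)) i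
  simp only [h1] at f4 f7 f8 f9 f11
  have g1 := inj i b
  have g2 := inj (i + 1) b
  have g3 := inj b i
  have g4 := inj b (i + 1)
  have g5 := inj a (i + 1)
  have g6 := inj i (i + 1)
  have g7 := inj (i + 1) i
  have g8 := inj' b i
  have g9 := inj' b (i + 1)
  unfold stk at hb ⊢
  split_ifs at hb ⊢ <;> omega

/-- stacking, as a map of diagrams -/
def stack {N i : ℕ} (h : i + 1 < N) (p : Diag N) : Diag N :=
  have c : p.1 i ≠ i := fun e => by have := (p.2.2.1 i).1 e; omega
  have d : p.1 (i + 1) ≠ i + 1 := fun e => by have := (p.2.2.1 _).1 e; omega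
  ⟨stk i p.1, stk_inv p.2.1 c d, fun x => by
    have := p.2.1 i
    have := p.2.1 (i + 1)
    have := p.2.1 x
    have := p.2.2.1 x
    have := p.2.2.1 (p.1 i)
    have := p.2.2.1 (p.1 (i + 1))
    unfold stk
    grind, stk_nc p.2.1 d p.2.2.2⟩

variable {K : Type*} [Field K]

/-- the action of `e_{i+1}` on the span of all diagrams; a closed loop gives the factor `τ` -/
noncomputable def eM (τ : K) {N i : ℕ} (h : i + 1 < N) : Module.End K (Diag N →₀ K) :=
  Finsupp.linearCombination K fun p =>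
    Finsupp.single (stack h p) (if p.1 i = i + 1 then τ else 1)

theorem eM_single (τ : K) {N i : ℕ} (h : i + 1 < N) (p : Diag N) (c : K) :
    eM τ h (Finsupp.single p c) =
      Finsupp.single (stack h p) (c * if p.1 i = i + 1 then τ else 1) := by
  simp [eM]

theorem eM_supp (τ : K) {N i : ℕ} (h : i + 1 < N) {S T : Set (Diag N)}
    (hS : ∀ p ∈ S, stack h p ∈ T) {v : Diag N →₀ K} (hv : v ∈ Finsupp.supported K K S) :
    eM τ h v ∈ Finsupp.supported K K T := by
  rw [Finsupp.supported_eq_span_single] at hv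
  induction hv using Submodule.span_induction with
  | mem z hz =>
    obtain ⟨p, hp, rfl⟩ := hz
    rw [eM_single]
    exact Finsupp.single_mem_supported K _ (hS p hp)
  | zero => simp
  | add _ _ _ _ a b => rw [map_add]; exact add_mem a b
  | smul c _ _ a => rw [map_smul]; exact Submodule.smul_mem _ c a

theorem eM_sq (τ : K) {N i : ℕ} (h : i + 1 < N) : eM τ h * eM τ h = τ • eM τ h := by
  refine Finsupp.lhom_ext fun p c => ?_
  have e1 : (stack h p).1 i = i + 1 := by simp [stack, stk]
  have e2 : stack h (stack h p) = stack h p := Subtype.ext (funext fun x => by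
    simp only [stack, stk]; grind)
  simp only [Module.End.mul_apply, eM_single, LinearMap.smul_apply, Finsupp.smul_single, e1, e2,
    if_true, smul_eq_mul, mul_comm τ]

theorem eM_adj (τ : K) {N i j : ℕ} (h : i + 1 < N) (h' : j + 1 < N) (e : j = i + 1 ∨ i = j + 1) :
    eM τ h * eM τ h' * eM τ h = eM τ h := by
  refine Finsupp.lhom_ext fun p c => ?_
  have a1 : (stack h p).1 i = i + 1 := by simp [stack, stk]
  have a2 : (stack h p).1 (i + 1) = i := by simp [stack, stk]
  simp only [Module.End.mul_apply, eM_single]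
  generalize stack h p = q at a1 a2
  have b0 := q.2.1
  have b1 := (q.2.2.1 j).not.2 (by omega)
  have b2 := (q.2.2.1 (j + 1)).not.2 (by omega)
  have b3 := b0 j
  have b4 := b0 (j + 1)
  have e1 : q.1 j ≠ j + 1 := by grind
  have e2 : (stack h' q).1 i ≠ i + 1 := by simp only [stack, stk]; grind
  have e3 : stack h (stack h' q) = q := Subtype.ext (funext fun x => by
    have := b0 x
    simp only [stack, stk]; grind)
  simp only [e1, e2, e3, if_false, mul_one]

theorem eM_far (τ : K) {N i j : ℕ} (h : i + 1 < N) (h' : j + 1 < N) (e : i + 1 < j) :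
    eM τ h * eM τ h' = eM τ h' * eM τ h := by
  refine Finsupp.lhom_ext fun p c => ?_
  simp only [Module.End.mul_apply, eM_single]
  have b1 := (p.2.2.1 j).not.2 (by omega)
  have b2 := (p.2.2.1 (j + 1)).not.2 (by omega)
  have b3 := (p.2.2.1 i).not.2 (by omega)
  have b4 := (p.2.2.1 (i + 1)).not.2 (by omega)
  have c1 := p.2.1 j
  have c2 := p.2.1 (j + 1)
  have c3 := p.2.1 i
  have c4 := p.2.1 (i + 1)
  have e3 : stack h (stack h' p) = stack h' (stack h p) := Subtype.ext (funext fun x => by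
    have := p.2.1 x
    change stk i (stk j p.1) x = stk j (stk i p.1) x
    generalize p.1 = q at *
    have n1 : i ≠ j := by omega
    have n2 : i ≠ j + 1 := by omega
    have n3 : i + 1 ≠ j := by omega
    have n4 : j ≠ i := by omega
    have n5 : j + 1 ≠ i := by omega
    have n6 : j ≠ i + 1 := by omega
    have n7 : i + 1 ≠ j + 1 := by omega
    have n8 : j + 1 ≠ i + 1 := by omega
    simp only [stk, if_neg n1, if_neg n2, if_neg n3, if_neg n4, if_neg n5, if_neg n6, if_neg n7,
      if_neg n8]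
    grind (splits := 30))
  rw [e3]
  congr 1
  simp only [stack, stk]
  grind

/-- the span of the diagrams with an arc between two of the bottom points `n, …, n + m - 1` -/
def ZZ (K : Type*) [Field K] (n m : ℕ) : Submodule K (Diag (n + m) →₀ K) :=
  Finsupp.supported K K {p | ∃ x, n ≤ x ∧ x < n + m ∧ n ≤ p.1 x}

/-- the module `V^n_m`: top points `0, …, n - 1`, bottom points `n, …, n + m - 1` -/
abbrev VV (K : Type*) [Field K] (n m : ℕ) : Type _ := (Diag (n + m) →₀ K) ⧸ ZZ K n m

/-- the action of `e_{i+1}` on `V^n_m` for `i + 1 < n` -/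
noncomputable def eV (τ : K) (n m i : ℕ) : Module.End K (VV K n m) :=
  if h : i + 1 < n then (ZZ K n m).mapQ (ZZ K n m) (eM τ (N := n + m) (i := i) (by omega))
    (fun _ hv => eM_supp τ _ (by
      rintro p ⟨x, a, b, c⟩
      have := p.2.1 i
      have := p.2.1 (i + 1)
      exact ⟨x, a, b, by simp only [stack, stk]; grind⟩) hv) else 0

theorem eV_mk (τ : K) {n i : ℕ} (m : ℕ) (h : i + 1 < n) (v : Diag (n + m) →₀ K) :
    eV τ n m i (Submodule.Quotient.mk v) =
      Submodule.Quotient.mk (eM τ (N := n + m) (i := i) (by omega) v) := by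
  rw [eV, dif_pos h, Submodule.mapQ_apply]

theorem eV_sq (τ : K) (n m i : ℕ) : eV τ n m i * eV τ n m i = τ • eV τ n m i := by
  by_cases h : i + 1 < n
  · refine LinearMap.ext fun v => ?_
    obtain ⟨v, rfl⟩ := Submodule.Quotient.mk_surjective _ v
    rw [Module.End.mul_apply, LinearMap.smul_apply, eV_mk τ m h, eV_mk τ m h,
      ← Module.End.mul_apply, eM_sq, LinearMap.smul_apply, Submodule.Quotient.mk_smul]
  · simp [eV, h]

theorem eV_adj (τ : K) {n i j : ℕ} (m : ℕ) (h : i + 1 < n) (h' : j + 1 < n)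
    (e : j = i + 1 ∨ i = j + 1) : eV τ n m i * eV τ n m j * eV τ n m i = eV τ n m i := by
  refine LinearMap.ext fun v => ?_
  obtain ⟨v, rfl⟩ := Submodule.Quotient.mk_surjective _ v
  simp only [Module.End.mul_apply, eV_mk τ m h, eV_mk τ m h']
  rw [← Module.End.mul_apply, ← Module.End.mul_apply, eM_adj τ _ _ e]

theorem eV_far (τ : K) {n i j : ℕ} (m : ℕ) (h' : j + 1 < n) (e : i + 1 < j) :
    eV τ n m i * eV τ n m j = eV τ n m j * eV τ n m i := by
  refine LinearMap.ext fun v => ?_
  obtain ⟨v, rfl⟩ := Submodule.Quotient.mk_surjective _ v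
  simp only [Module.End.mul_apply, eV_mk τ m (show i + 1 < n by omega), eV_mk τ m h']
  rw [← Module.End.mul_apply, eM_far τ _ _ e, Module.End.mul_apply]

/-- the loop value -/
def loop (A : Kˣ) : K := -(A : K) ^ 2 - (A : K)⁻¹ ^ 2

theorem gen_inv {R : Type*} [Ring R] [Algebra K R] (a b : K) (h : a * b = 1) (e : R)
    (he : e * e = (-a ^ 2 - b ^ 2) • e) : (a • 1 + b • e) * (b • 1 + a • e) = 1 := by
  simp only [mul_add, add_mul, smul_mul_assoc, mul_smul_comm, mul_one, one_mul, he]
  match_scalars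
  · linear_combination h
  · linear_combination (-a ^ 2 - b ^ 2) * h

/-- the unit `A + A⁻¹ e` -/
def gen {R : Type*} [Ring R] [Algebra K R] (A : Kˣ) (e : R) (he : e * e = loop A • e) : Rˣ where
  val := (A : K) • 1 + (A : K)⁻¹ • e
  inv := (A : K)⁻¹ • 1 + (A : K) • e
  val_inv := gen_inv _ _ (mul_inv_cancel₀ A.ne_zero) _ he
  inv_val := gen_inv _ _ (inv_mul_cancel₀ A.ne_zero) _ (by rw [he, loop]; congr 1; ring)

/-- the Temperley-Lieb relations for endomorphisms `e 0, …, e (n - 2)` of a vector space -/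
def TL {V : Type*} [AddCommGroup V] [Module K V] (τ : K) (n : ℕ) (e : ℕ → Module.End K V) : Prop :=
  (∀ i, e i * e i = τ • e i) ∧ ∀ i j, i < j → j + 1 < n →
    (i + 1 < j → e i * e j = e j * e i) ∧
      (i + 1 = j → e i * e j * e i = e i ∧ e j * e i * e j = e j)

/-- the image `A + A⁻¹ e i` of `σ_{i+1}` -/
def tlGen {V : Type*} [AddCommGroup V] [Module K V] (A : Kˣ) (n : ℕ) (e : ℕ → Module.End K V)
    (h : TL (loop A) n e) (i : ℕ) : (Module.End K V)ˣ := gen A (e i) (h.1 i)

/-- the action `σ_{i+1} ↦ A + A⁻¹ e i` of the braid group on a Temperley-Lieb module -/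
def tlHom {V : Type*} [AddCommGroup V] [Module K V] (A : Kˣ) (n : ℕ) (e : ℕ → Module.End K V)
    (h : TL (loop A) n e) : Braid n →* (Module.End K V)ˣ :=
  hom n (tlGen A n e h)
    (fun i j a hj => by
      ext1
      simp only [Units.val_mul, tlGen, gen, mul_add, add_mul, smul_mul_assoc, mul_smul_comm,
        mul_one, one_mul, (h.2 i j (by omega) (by omega)).1 a]
      module)
    (fun i hi => by
      ext1
      have := A.ne_zero
      obtain ⟨a, b⟩ := (h.2 i (i + 1) (by omega) (by omega)).2 rfl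
      simp only [Units.val_mul, tlGen, gen, mul_add, add_mul, smul_mul_assoc, mul_smul_comm,
        mul_one, one_mul, h.1, a, b]
      unfold loop
      match_scalars <;> field_simp <;> ring)

theorem eV_TL (τ : K) (n m : ℕ) : TL τ n (eV τ n m) :=
  ⟨eV_sq τ n m, fun _ _ _ h => ⟨eV_far τ m h, fun e =>
    ⟨eV_adj τ m (by omega) h (Or.inl e.symm), eV_adj τ m h (by omega) (Or.inr e.symm)⟩⟩⟩

/-- the action of `B_n` on `V^n_m` -/
noncomputable def rhoV (A : Kˣ) (n m : ℕ) : Braid n →* (Module.End K (VV K n m))ˣ :=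
  tlHom A n (eV (loop A) n m) (eV_TL _ n m)

/-- the braids that act on `V^n_m` as the identity -/
noncomputable def kerV (A : Kˣ) (n m : ℕ) : Subgroup (Braid n) := (rhoV A n m).ker

theorem rhoV_σ (A : Kˣ) {n i : ℕ} (m : ℕ) (h : i < n - 1) :
    (rhoV A n m (σ n i)).val = (A : K) • 1 + (A : K)⁻¹ • eV (loop A) n m i := by
  rw [rhoV, tlHom, hom_σ _ _ h]; rfl

theorem cups (τ : K) {n : ℕ} (m : ℕ) (v : Diag (n + m) →₀ K) : ∀ l : List ℕ,
    (∀ j ∈ l, 2 * j + 1 < n) → ∃ w ∈ Finsupp.supported K K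
      {p : Diag (n + m) | ∀ j ∈ l, p.1 (2 * j) = 2 * j + 1},
      (l.map fun j => eV τ n m (2 * j)).prod (Submodule.Quotient.mk v) = Submodule.Quotient.mk w
  | [], _ => ⟨v, by simp, rfl⟩
  | i :: l, h => by
    obtain ⟨w, hw, e⟩ := cups τ m v l fun j hj => h j (List.mem_cons_of_mem _ hj)
    have hi := h i List.mem_cons_self
    refine ⟨eM τ (show 2 * i + 1 < n + m by omega) w, eM_supp τ _ ?_ hw, by
      rw [List.map_cons, List.prod_cons, Module.End.mul_apply, e, eV_mk τ m hi]⟩
    intro p hp j hj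
    have := p.2.1 (2 * i)
    have := p.2.1 (2 * i + 1)
    have := fun h => hp j h
    simp only [stack, stk]
    grind

theorem cups_zero (τ : K) {n m k : ℕ} (h1 : 2 * k + 2 ≤ n) (h2 : n ≤ m + 2 * k) :
    ((List.range (k + 1)).map fun j => eV τ n m (2 * j)).prod = 0 := by
  refine LinearMap.ext fun v => ?_
  obtain ⟨v, rfl⟩ := Submodule.Quotient.mk_surjective _ v
  obtain ⟨w, hw, e⟩ := cups τ m v (List.range (k + 1)) fun j hj => by
    have := List.mem_range.1 hj; omega
  rw [e, LinearMap.zero_apply, Submodule.Quotient.mk_eq_zero]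
  refine Finsupp.supported_mono (fun p hp => ?_) hw
  by_contra c
  simp only [Set.mem_ofPred_eq, not_exists, not_and, not_le] at c
  have := Finset.card_le_card_of_injOn (s := Finset.Ico n (n + m)) (t := Finset.Ico (2 * k + 2) n)
    p.1 (fun x hx => by
      obtain ⟨a, b⟩ := Finset.mem_Ico.1 (Finset.mem_coe.1 hx)
      refine Finset.mem_coe.2 (Finset.mem_Ico.2 ⟨?_, c x a b⟩)
      by_contra d
      have e1 := hp (p.1 x / 2) (List.mem_range.2 (by omega))
      have e2 := p.2.1 x
      have e3 := p.2.1 (2 * (p.1 x / 2))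
      have e4 : p.1 x = 2 * (p.1 x / 2) ∨ p.1 x = 2 * (p.1 x / 2) + 1 := by omega
      grind) (Function.LeftInverse.injective p.2.1).injOn
  simp only [Nat.card_Ico] at this
  omega

end Pool.Agent.P.MP_0bb74b_gt.Dep
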