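import Pool.Agent.P.MP_0bb74b_gt.Dep.Side

/-! The filtration by the number of cups and the iterated commutators. -/

namespace Pool.Agent.P.MP_0bb74b_gt.Dep

attribute [local irreducible] psi

/-- the words in the generators `s ≤ i < t` -/
def HH (s t : ℕ) : Subgroup (FreeGroup ℕ) :=
  Subgroup.closure {w | ∃ i, s ≤ i ∧ i < t ∧ w = FreeGroup.of i}

theorem of_mem {s t i : ℕ} (h1 : s ≤ i) (h2 : i < t) : FreeGroup.of i ∈ HH s t :=
  Subgroup.subset_closure ⟨i, h1, h2, rfl⟩

theorem HH_mono {s t s' t' : ℕ} (h1 : s' ≤ s) (h2 : t ≤ t') : HH s t ≤ HH s' t' :=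
  Subgroup.closure_mono fun _ ⟨i, a, b, e⟩ => ⟨i, h1.trans a, b.trans_le h2, e⟩

/-- a word on four generators, shifted by `m` -/
def wd (m : ℕ) (w : List (ℕ × Bool)) : FreeGroup ℕ :=
  (w.map fun x => if x.2 then FreeGroup.of (m + x.1) else (FreeGroup.of (m + x.1))⁻¹).prod

theorem wd_mem (m : ℕ) {w : List (ℕ × Bool)} (h : ∀ x ∈ w, x.1 < 4) : wd m w ∈ HH m (m + 4) := by
  refine Subgroup.list_prod_mem _ fun z hz => ?_
  obtain ⟨x, hx, rfl⟩ := List.mem_map.1 hz
  have := of_mem (s := m) (t := m + 4) (i := m + x.1) (by omega) (by have := h x hx; omega)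
  split_ifs
  exacts [this, inv_mem this]

theorem psi_lt : ∀ x ∈ psi, x.1 < 4 := by
  have := chk_psi
  simp only [chk, Bool.and_eq_true, List.all_eq_true, decide_eq_true_eq] at this
  exact this.1

theorem psi_mem (m : ℕ) : wd m psi ∈ HH m (m + 4) := wd_mem m psi_lt

/-- moves the strand `m` to the place `m + 4` -/
def mv (m : ℕ) : FreeGroup ℕ := .of (m + 3) * (.of (m + 2) * (.of (m + 1) * .of m))

theorem mv_mem (m : ℕ) : mv m ∈ HH 0 (m + 4) :=
  mul_mem (of_mem (by omega) (by omega)) (mul_mem (of_mem (by omega) (by omega))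
    (mul_mem (of_mem (by omega) (by omega)) (of_mem (by omega) (by omega))))

/-- the iterated commutators -/
def cc : ℕ → FreeGroup ℕ
  | 0 => mv 0 * wd 0 psi * (mv 0)⁻¹
  | j + 1 => mv (4 * j + 4) * ((wd (4 * j + 4) psi * cc j)⁻¹ * (cc j * wd (4 * j + 4) psi)) *
      (mv (4 * j + 4))⁻¹

theorem cc_mem : ∀ j, cc j ∈ HH 0 (4 * j + 4)
  | 0 => mul_mem (mul_mem (mv_mem 0) (psi_mem 0)) (inv_mem (mv_mem 0))
  | j + 1 => by
    have h1 := HH_mono (le_refl 0) (show 4 * j + 4 ≤ 4 * j + 4 + 4 by omega) (cc_mem j)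
    have h2 := HH_mono (Nat.zero_le _) le_rfl (psi_mem (4 * j + 4))
    exact mul_mem (mul_mem (mv_mem _) (mul_mem (inv_mem (mul_mem h2 h1)) (mul_mem h1 h2)))
      (inv_mem (mv_mem _))

variable {K R : Type*} [Field K] [Ring R] [Algebra K R]

/-- the data of a Hecke type representation with `N` generators -/
structure GR (N : ℕ) (a y : K) (f : ℕ → R) (u : ℕ → Rˣ) : Prop where
  a0 : a ≠ 0
  y0 : y ≠ 0
  y1 : -1 - y ≠ 0
  sq : ∀ i < N, f i * f i = (-1 - y) • f i
  far : ∀ i j, i + 2 ≤ j → j < N → f i * f j = f j * f i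
  adj : ∀ i, i + 1 < N →
    f i * f (i + 1) * f i - y • f i = f (i + 1) * f i * f (i + 1) - y • f (i + 1)
  val : ∀ i < N, (u i : R) = a • (1 + f i)

/-- the elements that commute with the generators beyond `t` -/
def CC (K : Type*) [Field K] [Algebra K R] (N : ℕ) (f : ℕ → R) (t : ℕ) : Subalgebra K R :=
  Subalgebra.centralizer K {z | ∃ i, t + 1 ≤ i ∧ i < N ∧ z = f i}

theorem mem_CC {N t : ℕ} {f : ℕ → R} {x : R} :
    x ∈ CC K N f t ↔ ∀ i, t + 1 ≤ i → i < N → Commute (f i) x := by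
  rw [CC, Subalgebra.mem_centralizer_iff]
  exact ⟨fun h i a b => h _ ⟨i, a, b, rfl⟩, fun h _ ⟨i, a, b, e⟩ => e ▸ h i a b⟩

theorem CC_mono {N t t' : ℕ} {f : ℕ → R} (h : t ≤ t') {x : R} (hx : x ∈ CC K N f t) :
    x ∈ CC K N f t' := mem_CC.2 fun i a b => mem_CC.1 hx i (by omega) b

/-- the product of `k` cups -/
def EE (f : ℕ → R) (k : ℕ) : R := ((List.range k).map fun j => f (2 * j)).prod

theorem EE_succ (f : ℕ → R) (k : ℕ) : EE f (k + 1) = EE f k * f (2 * k) := by
  simp [EE, List.range_succ]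

/-- the ideal of `k` cups on the points up to `t` -/
def Lv (K : Type*) [Field K] [Algebra K R] (N : ℕ) (f : ℕ → R) (k t : ℕ) : Submodule K R :=
  Submodule.span K {z | ∃ u ∈ CC K N f t, ∃ v ∈ CC K N f t, z = u * EE f k * v}

theorem Lv_mul {N k t : ℕ} {f : ℕ → R} {p q x : R} (hp : p ∈ CC K N f t) (hq : q ∈ CC K N f t)
    (hx : x ∈ Lv K N f k t) : p * x * q ∈ Lv K N f k t := by
  induction hx using Submodule.span_induction with
  | mem z hz =>
    obtain ⟨u, hu, v, hv, rfl⟩ := hz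
    exact Submodule.subset_span ⟨p * u, mul_mem hp hu, v * q, mul_mem hv hq, by
      simp only [mul_assoc]⟩
  | zero => simp
  | add _ _ _ _ h1 h2 => rw [mul_add, add_mul]; exact add_mem h1 h2
  | smul c _ _ h1 => rw [mul_smul_comm, smul_mul_assoc]; exact Submodule.smul_mem _ c h1

theorem Lv_left {N k t : ℕ} {f : ℕ → R} {p x : R} (hp : p ∈ CC K N f t)
    (hx : x ∈ Lv K N f k t) : p * x ∈ Lv K N f k t := by
  simpa using Lv_mul hp (one_mem _) hx

theorem Lv_right {N k t : ℕ} {f : ℕ → R} {q x : R} (hq : q ∈ CC K N f t)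
    (hx : x ∈ Lv K N f k t) : x * q ∈ Lv K N f k t := by
  simpa using Lv_mul (one_mem _) hq hx

variable {N : ℕ} {a y : K} {f : ℕ → R} {u : ℕ → Rˣ}

theorem GR.mem (h : GR N a y f u) {i t : ℕ} (hi : i < t) : f i ∈ CC K N f t :=
  mem_CC.2 fun j a b => (h.far i j (by omega) b).symm

theorem GR.inv (h : GR N a y f u) {i : ℕ} (hi : i < N) :
    (1 + f i) * (y⁻¹ • (y • 1 + f i)) = 1 := by
  have := h.y0
  simp only [mul_add, add_mul, one_mul, mul_smul_comm, mul_one, h.sq i hi]
  match_scalars <;> field_simp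
  ring

theorem GR.val_inv (h : GR N a y f u) {i : ℕ} (hi : i < N) :
    (((u i)⁻¹ : Rˣ) : R) = (a * y)⁻¹ • (y • 1 + f i) := by
  refine Units.inv_eq_of_mul_eq_one_right ?_
  have := h.inv hi
  rw [h.val i hi, mul_inv, mul_smul, smul_mul_assoc, mul_smul_comm, this, smul_smul,
    mul_inv_cancel₀ h.a0, one_smul]

theorem GR.lift_mem (h : GR N a y f u) {s t : ℕ} (ht : t ≤ N) {w : FreeGroup ℕ}
    (hw : w ∈ HH s t) : (FreeGroup.lift u w : R) ∈ CC K N f t := by
  induction hw using Subgroup.closure_induction with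
  | mem z hz =>
    obtain ⟨i, -, hi, rfl⟩ := hz
    rw [FreeGroup.lift_apply_of, h.val i (by omega)]
    exact Subalgebra.smul_mem _ (add_mem (one_mem _) (h.mem hi)) _
  | one => simp
  | mul _ _ _ _ h1 h2 => rw [map_mul, Units.val_mul]; exact mul_mem h1 h2
  | inv _ _ h1 =>
    rw [map_inv]
    exact mem_CC.2 fun i a b => (mem_CC.1 h1 i a b).units_inv_right

theorem GR.EE_comm (h : GR N a y f u) {i : ℕ} (hi : i < N) :
    ∀ k, 2 * k ≤ i → Commute (f i) (EE f k)
  | 0, _ => Commute.one_right _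
  | k + 1, hk => by
    rw [EE_succ]
    exact (GR.EE_comm h hi k (by omega)).mul_right (h.far _ i (by omega) hi).symm

theorem GR.key (h : GR N a y f u) {k t : ℕ} (ht : t ≤ N) {i : ℕ} (hi : 2 * k ≤ i) :
    i < t → EE f k * f i ∈ Lv K N f (k + 1) t := by
  induction i, hi using Nat.le_induction with
  | base =>
    exact fun _ => Submodule.subset_span ⟨1, one_mem _, 1, one_mem _, by simp [EE_succ]⟩
  | succ i hi ih =>
    intro hit
    have b : (1 + f i) * (1 + f (i + 1)) * f i = f (i + 1) * ((1 + f i) * (1 + f (i + 1))) := by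
      have h1 := h.sq i (by omega)
      have h2 := h.sq (i + 1) (by omega)
      have h3 := h.adj i (by omega)
      rw [sub_eq_iff_eq_add] at h3
      simp only [mul_add, add_mul, one_mul, mul_one, ← mul_assoc, h1, h2, h3]
      module
    have m0 : f i ∈ CC K N f t := h.mem (by omega)
    have m1 : f (i + 1) ∈ CC K N f t := h.mem hit
    have o := one_mem (CC K N f t)
    have := Lv_mul (mul_mem (add_mem o m0) (add_mem o m1))
      (mul_mem (Subalgebra.smul_mem _ (add_mem (Subalgebra.smul_mem _ o y) m1) y⁻¹)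
        (Subalgebra.smul_mem _ (add_mem (Subalgebra.smul_mem _ o y) m0) y⁻¹)) (ih (by omega))
    have c : Commute ((1 + f i) * (1 + f (i + 1))) (EE f k) :=
      ((Commute.one_left _).add_left (h.EE_comm (by omega) k hi)).mul_left
        ((Commute.one_left _).add_left (h.EE_comm (by omega) k (by omega)))
    rw [← mul_assoc _ (EE f k), c.eq, mul_assoc (EE f k), b, mul_assoc, mul_assoc, mul_assoc,
      ← mul_assoc (1 + f (i + 1)), h.inv (by omega), one_mul, h.inv (by omega), mul_one] at this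
    exact this

theorem GR.prod (h : GR N a y f u) {k m i t : ℕ} (ht : t ≤ N) (h1 : m + 1 ≤ i) (h2 : 2 * k ≤ i)
    (h3 : i < t) {x : R} (hx : x ∈ Lv K N f k m) :
    x * f i ∈ Lv K N f (k + 1) t ∧ f i * x ∈ Lv K N f (k + 1) t := by
  induction hx using Submodule.span_induction with
  | mem z hz =>
    obtain ⟨p, hp, q, hq, rfl⟩ := hz
    have := Lv_mul (CC_mono (by omega) hp) (CC_mono (by omega) hq) (h.key ht h2 h3)
    have c1 := mem_CC.1 hp i h1 (by omega)
    have c2 := mem_CC.1 hq i h1 (by omega)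
    have c3 := h.EE_comm (show i < N by omega) k h2
    constructor
    · rwa [mul_assoc, ← c2.eq, ← mul_assoc, mul_assoc p]
    · rwa [← mul_assoc, ← mul_assoc, c1.eq, mul_assoc p, c3.eq]
  | zero => simp
  | add _ _ _ _ a1 a2 => rw [mul_add, add_mul]; exact ⟨add_mem a1.1 a2.1, add_mem a1.2 a2.2⟩
  | smul c _ _ a1 =>
    rw [mul_smul_comm, smul_mul_assoc]
    exact ⟨Submodule.smul_mem _ c a1.1, Submodule.smul_mem _ c a1.2⟩

/-- four generators as elements of the centralizer -/
def GR.sub (h : GR N a y f u) (m i : ℕ) : CC K N f (m + 4) :=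
  if hi : i < 4 then ⟨f (m + i), h.mem (by omega)⟩ else 0

theorem GR.sub_val (h : GR N a y f u) (m : ℕ) {i : ℕ} (hi : i < 4) :
    (h.sub m i : R) = f (m + i) := by rw [GR.sub, dif_pos hi]

theorem GR.rel (h : GR N a y f u) {m : ℕ} (hm : m + 4 ≤ N) : Rel y (h.sub m) :=
  ⟨fun i hi => Subtype.ext (by
      simp only [MulMemClass.coe_mul, SetLike.val_smul, h.sub_val m hi]
      exact h.sq _ (by omega)),
    fun i j hij hj => Subtype.ext (by
      simp only [MulMemClass.coe_mul, h.sub_val m hj, h.sub_val m (show i < 4 by omega)]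
      exact h.far _ _ (by omega) (by omega)),
    fun i hi => Subtype.ext (by
      simp only [AddSubgroupClass.coe_sub, MulMemClass.coe_mul, SetLike.val_smul, h.sub_val m hi,
        h.sub_val m (show i < 4 by omega)]
      exact h.adj _ (by omega))⟩

theorem GR.wd_val (h : GR N a y f u) {m : ℕ} (hm : m + 4 ≤ N) : ∀ w : List (ℕ × Bool),
    (∀ x ∈ w, x.1 < 4) → (FreeGroup.lift u (wd m w) : R) =
      (a ^ w.countP (fun x => x.2) * (a * y)⁻¹ ^ w.countP (fun x => !x.2)) •
        ((w.map (lt y (h.sub m))).prod : CC K N f (m + 4))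
  | [], _ => by simp [wd]
  | (i, b) :: w, hw => by
    have ih := GR.wd_val h hm w fun z hz => hw z (List.mem_cons_of_mem _ hz)
    have hi : i < 4 := hw _ List.mem_cons_self
    have e : wd m ((i, b) :: w) =
        (if b then FreeGroup.of (m + i) else (FreeGroup.of (m + i))⁻¹) * wd m w := rfl
    rw [e, map_mul, Units.val_mul, ih, List.map_cons, List.prod_cons, MulMemClass.coe_mul, lt]
    cases b
    · simp only [Bool.false_eq_true, if_false, map_inv, FreeGroup.lift_apply_of,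
        h.val_inv (show m + i < N by omega), AddMemClass.coe_add, SetLike.val_smul,
        OneMemClass.coe_one, h.sub_val m hi, smul_mul_smul_comm, List.countP_cons, Bool.not_false,
        if_true, add_zero]
      congr 1; ring
    · simp only [if_true, FreeGroup.lift_apply_of, h.val _ (show m + i < N by omega),
        AddMemClass.coe_add, one_smul, OneMemClass.coe_one, h.sub_val m hi, smul_mul_smul_comm,
        List.countP_cons, Bool.not_true, Bool.false_eq_true, if_false, add_zero]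
      congr 1; ring

theorem GR.psi_val (h : GR N a y f u) {m : ℕ} (hm : m + 4 ≤ N) :
    (FreeGroup.lift u (wd m psi) : R) - 1 = (y ^ 61)⁻¹ • (((psi.map (lt y (h.sub m))).prod -
      y ^ psi.countP (fun x => !x.2) • 1 : CC K N f (m + 4)) : R) := by
  have := h.a0
  have := h.y0
  rw [h.wd_val hm psi psi_lt, cnt_psi.1, cnt_psi.2, AddSubgroupClass.coe_sub, SetLike.val_smul,
    OneMemClass.coe_one]
  match_scalars <;> field_simp

/-- the level of a word -/
def Lev (K : Type*) [Field K] [Algebra K R] (N : ℕ) (f : ℕ → R) (u : ℕ → Rˣ) (w : FreeGroup ℕ)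
    (k t : ℕ) : Prop := (FreeGroup.lift u w : R) - 1 ∈ Lv K N f k t

theorem GR.base (h : GR N a y f u) (h4 : 4 ≤ N) : Lev K N f u (wd 0 psi) 2 4 := by
  have s : Stab (h.sub 0) ((Lv K N f 2 4).comap (CC K N f (0 + 4)).val.toLinearMap) := by
    refine ⟨fun i _ x hx => Lv_left (h.sub 0 i).2 hx, fun i j hij hj v => ?_⟩
    have a1 : f i ∈ Lv K N f (0 + 1) (i + 1) := by
      simpa [EE] using h.key (k := 0) (t := i + 1) (by omega) (Nat.zero_le i) (by omega)
    have a2 := Lv_right v.2 (h.prod h4 hij (by omega) hj a1).1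
    change (h.sub 0 i : R) * (h.sub 0 j * v) ∈ Lv K N f 2 4
    rwa [h.sub_val 0 hj, h.sub_val 0 (show i < 4 by omega), zero_add, zero_add, ← mul_assoc]
  rw [Lev, h.psi_val (m := 0) h4]
  exact Submodule.smul_mem _ _ (chk_mod h.y0 h.y1 (h.rel h4) s chk_psi)

theorem GR.conj (h : GR N a y f u) {w b : FreeGroup ℕ} {k t : ℕ} (ht : t ≤ N)
    (hb : b ∈ HH 0 t) (hw : Lev K N f u w k t) : Lev K N f u (b * w * b⁻¹) k t := by
  have := Lv_mul (h.lift_mem ht hb) (h.lift_mem ht (inv_mem hb)) hw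
  rw [mul_sub, sub_mul, mul_one, ← Units.val_mul, ← Units.val_mul, ← Units.val_mul, ← map_mul,
    ← map_mul, ← map_mul, mul_inv_cancel, map_one, Units.val_one] at this
  exact this

theorem GR.step (h : GR N a y f u) {g : FreeGroup ℕ} {k m : ℕ} (hm : m + 4 ≤ N)
    (hk : 2 * k ≤ m + 1) (hg : g ∈ HH 0 m) (hw : Lev K N f u g k m) :
    Lev K N f u ((wd m psi * g)⁻¹ * (g * wd m psi)) (k + 1) (m + 4) := by
  obtain ⟨p1, p2, p3, e1⟩ := left_form h.y0 h.y1 (h.rel hm) chk_psi
  obtain ⟨q1, q2, q3, e2⟩ := right_form h.y0 h.y1 (h.rel hm) chk_psi_rev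
  obtain ⟨x, hx⟩ : ∃ x, x = (FreeGroup.lift u g : R) - 1 := ⟨_, rfl⟩
  obtain ⟨z, hz⟩ : ∃ z, z = (FreeGroup.lift u (wd m psi) : R) - 1 := ⟨_, rfl⟩
  have v := hz.trans (h.psi_val hm)
  have hw' : x ∈ Lv K N f k m := by rw [hx]; exact hw
  have P := fun i (h1 : 1 ≤ i) (h4 : i < 4) =>
    h.prod (i := m + i) hm (by omega) (by omega) (by omega) hw'
  have a1 : x * z ∈ Lv K N f (k + 1) (m + 4) := by
    rw [v, e1, mul_smul_comm]
    simp only [AddMemClass.coe_add, MulMemClass.coe_mul, mul_add, ← mul_assoc,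
      h.sub_val m (show 1 < 4 by omega), h.sub_val m (show 2 < 4 by omega),
      h.sub_val m (show 3 < 4 by omega)]
    exact Submodule.smul_mem _ _ (add_mem (add_mem (Lv_right p1.2 (P 1 (by omega) (by omega)).1)
      (Lv_right p2.2 (P 2 (by omega) (by omega)).1)) (Lv_right p3.2 (P 3 (by omega) (by omega)).1))
  have a2 : z * x ∈ Lv K N f (k + 1) (m + 4) := by
    rw [v, e2, smul_mul_assoc]
    simp only [AddMemClass.coe_add, MulMemClass.coe_mul, add_mul, mul_assoc,
      h.sub_val m (show 1 < 4 by omega), h.sub_val m (show 2 < 4 by omega),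
      h.sub_val m (show 3 < 4 by omega)]
    exact Submodule.smul_mem _ _ (add_mem (add_mem (Lv_left q1.2 (P 1 (by omega) (by omega)).2)
      (Lv_left q2.2 (P 2 (by omega) (by omega)).2)) (Lv_left q3.2 (P 3 (by omega) (by omega)).2))
  have hm' : (wd m psi * g)⁻¹ ∈ HH 0 (m + 4) :=
    inv_mem (mul_mem (HH_mono (Nat.zero_le _) le_rfl (psi_mem m)) (HH_mono le_rfl (by omega) hg))
  have := Lv_left (h.lift_mem hm hm') (sub_mem a1 a2)
  have e : x * z - z * x = (FreeGroup.lift u (g * wd m psi) : R) -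
      FreeGroup.lift u (wd m psi * g) := by
    rw [map_mul, map_mul, Units.val_mul, Units.val_mul, hx, hz]; noncomm_ring
  rw [e, mul_sub, ← Units.val_mul, ← Units.val_mul, ← map_mul, ← map_mul, inv_mul_cancel, map_one,
    Units.val_one] at this
  exact this

theorem GR.lev (h : GR N a y f u) : ∀ j, 4 * j + 4 ≤ N → Lev K N f u (cc j) (j + 2) (4 * j + 4)
  | 0, hj => h.conj hj (mv_mem 0) (h.base hj)
  | j + 1, hj => h.conj hj (mv_mem _)
      (h.step hj (by omega) (cc_mem j) (GR.lev h j (by omega)))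

theorem GR.kill (h : GR N a y f u) {j : ℕ} (hj : 4 * j + 4 ≤ N) (h0 : EE f (j + 2) = 0) :
    FreeGroup.lift u (cc j) = 1 := by
  have := h.lev j hj
  have e : Lv K N f (j + 2) (4 * j + 4) = ⊥ :=
    Submodule.span_eq_bot.2 fun z ⟨p, _, q, _, e⟩ => by rw [e, h0, mul_zero, zero_mul]
  rw [Lev, e, Submodule.mem_bot, sub_eq_zero] at this
  exact Units.ext this

end Pool.Agent.P.MP_0bb74b_gt.Dep
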