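import Pool.Agent.P.MP_0bb74b_gt.Dep.Rack
import Pool.Agent.P.MP_0bb74b_gt.Dep.Braid

/-! A nontrivial braid in the kernel of all Hecke representations of bounded depth. -/

namespace Pool.Agent.P.MP_0bb74b_gt.Dep

theorem ne_one {n m t : ℕ} {w : FreeGroup ℕ} (ht : t ≤ n - 1) (hw : w ∈ HH 0 t) (h : NN w m) :
    FreeGroup.lift (σ n) w ≠ 1 := fun e => by
  obtain ⟨G, _, T, u, hu, a1, a2⟩ := h
  let θ : Braid n →* Equiv.Perm (ℕ → G ⊕ G) :=
    hom n tw (fun _ _ h _ => tw_far h) fun i _ => tw_adj i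
  have : (θ.comp (FreeGroup.lift (σ n))) w = act w :=
    MonoidHom.eqOn_closure (by
      rintro _ ⟨i, -, hi, rfl⟩
      simp only [MonoidHom.comp_apply, FreeGroup.lift_apply_of, act_of]
      exact hom_σ _ _ (by omega)) hw
  rw [MonoidHom.comp_apply, e, map_one] at this
  have h2 := a2.1
  rw [← this, Equiv.Perm.one_apply, a1.1] at h2
  exact hu (Sum.inr_injective h2).symm

theorem gr {K R : Type*} [Field K] [Ring R] [Algebra K R] {n : ℕ} {a b : Kˣ} (ρ : Braid n →* Rˣ)
    (hab : a ≠ b) (hq : ∀ i < n - 1,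
      ((ρ (σ n i) : R) - algebraMap K R a) * (ρ (σ n i) - algebraMap K R b) = 0) :
    GR (n - 1) (a : K) (-(b : K) / a) (fun i => (a : K)⁻¹ • (ρ (σ n i) : R) - 1)
      fun i => ρ (σ n i) := by
  have a0 := a.ne_zero
  have b0 := b.ne_zero
  have sq : ∀ i < n - 1, (ρ (σ n i) : R) * ρ (σ n i) =
      ((a : K) + b) • (ρ (σ n i) : R) - ((a : K) * b) • 1 := fun i hi => by
    have := hq i hi
    simp only [Algebra.algebraMap_eq_smul_one, mul_sub, sub_mul, mul_smul_comm, smul_mul_assoc,
      mul_one, one_mul] at this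
    rw [← sub_eq_zero, ← this]
    module
  refine ⟨a0, by simp, fun e => hab (Units.ext ?_), fun i hi => ?_, fun i j hij hj => ?_,
    fun i hi => ?_, fun i _ => ?_⟩
  · field_simp at e
    linear_combination -e
  · simp only [mul_sub, sub_mul, mul_smul_comm, smul_mul_assoc, mul_one, one_mul, sq i hi]
    match_scalars <;> field_simp <;> ring
  · have := congrArg (fun g => (ρ g : R)) (σ_far hij hj)
    simp only [map_mul, Units.val_mul] at this
    simp only [mul_sub, sub_mul, mul_smul_comm, smul_mul_assoc, mul_one, one_mul, this]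
    module
  · have := congrArg (fun g => (ρ g : R)) (σ_adj hi)
    simp only [map_mul, Units.val_mul] at this
    simp only [mul_sub, sub_mul, mul_smul_comm, smul_mul_assoc, mul_one, one_mul, this,
      sq i (by omega), sq (i + 1) hi]
    match_scalars <;> field_simp <;> ring
  · simp [smul_smul]

universe u v

theorem main (k n : ℕ) (hk : 1 ≤ k) (hn : 4 * k + 1 ≤ n) :
    ∃ β : Braid n, β ≠ 1 ∧ ∀ (K : Type u) (R : Type v) [Field K] [Ring R] [Algebra K R] (a b : Kˣ)
      (ρ : Braid n →* Rˣ), a ≠ b →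
      (∀ i < n - 1, ((ρ (σ n i) : R) - algebraMap K R a) * (ρ (σ n i) - algebraMap K R b) = 0) →
      ((List.range (k + 1)).map fun j => (ρ (σ n (2 * j)) : R) - algebraMap K R a).prod = 0 →
      ρ β = 1 := by
  obtain ⟨j, rfl⟩ : ∃ j, k = j + 1 := ⟨k - 1, by omega⟩
  refine ⟨FreeGroup.lift (σ n) (cc j), ne_one (by omega) (cc_mem j) (NN_cc j),
    fun K R _ _ _ a b ρ hab hq h0 => ?_⟩
  have e : ρ.comp (FreeGroup.lift (σ n)) = FreeGroup.lift fun i => ρ (σ n i) := by
    ext i; simp
  rw [← MonoidHom.comp_apply, e]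
  refine (gr ρ hab hq).kill (by omega) ?_
  have s : ∀ l : List ℕ, (l.map fun i => (a : K)⁻¹ • (ρ (σ n (2 * i)) : R) - 1).prod =
      ((a : K)⁻¹ ^ l.length) • (l.map fun i => (ρ (σ n (2 * i)) : R) - algebraMap K R a).prod := by
    intro l
    induction l with
    | nil => simp
    | cons i l ih =>
      have : (a : K)⁻¹ • (ρ (σ n (2 * i)) : R) - 1 =
          (a : K)⁻¹ • ((ρ (σ n (2 * i)) : R) - algebraMap K R a) := by
        rw [smul_sub, Algebra.algebraMap_eq_smul_one, smul_smul, inv_mul_cancel₀ a.ne_zero,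
          one_smul]
      rw [List.map_cons, List.prod_cons, ih, this, smul_mul_smul_comm, List.length_cons, pow_succ',
        List.map_cons, List.prod_cons]
  rw [EE, s, h0, smul_zero]

end Pool.Agent.P.MP_0bb74b_gt.Dep
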