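import Mathlib

/-! Integer polynomials as coefficient lists, and the finite check for the word of Bigelow. -/

namespace Pool.Agent.P.MP_0bb74b_gt.Dep

/-- sum of coefficient lists -/
def padd : List ℤ → List ℤ → List ℤ
  | [], q => q
  | a :: p, [] => a :: p
  | a :: p, b :: q => (a + b) :: padd p q

/-- product of coefficient lists -/
def pmul : List ℤ → List ℤ → List ℤ
  | [], _ => []
  | a :: p, q => padd (q.map (a * ·)) (0 :: pmul p q)

/-- value of a coefficient list -/
def pev {K : Type*} [CommRing K] (y : K) : List ℤ → K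
  | [] => 0
  | a :: p => a + y * pev y p

section
variable {K : Type*} [CommRing K] (y : K)

@[simp] lemma pev_nil : pev y [] = 0 := rfl
@[simp] lemma pev_cons (a : ℤ) (p : List ℤ) : pev y (a :: p) = a + y * pev y p := rfl

lemma pev_padd : ∀ p q : List ℤ, pev y (padd p q) = pev y p + pev y q
  | [], q => by simp [padd]
  | a :: p, [] => by simp [padd]
  | a :: p, b :: q => by simp only [padd, pev_cons, pev_padd p q]; push_cast; ring

lemma pev_map (a : ℤ) : ∀ q : List ℤ, pev y (q.map (a * ·)) = a * pev y q
  | [] => by simp
  | b :: q => by simp only [List.map_cons, pev_cons, pev_map a q]; push_cast; ring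

lemma pev_pmul : ∀ p q : List ℤ, pev y (pmul p q) = pev y p * pev y q
  | [], q => by simp [pmul]
  | a :: p, q => by simp only [pmul, pev_padd, pev_map, pev_cons, pev_pmul p q]; push_cast; ring

lemma pev_zero : ∀ p : List ℤ, p.all (· == 0) = true → pev y p = 0
  | [], _ => rfl
  | a :: p, h => by
    simp only [List.all_cons, Bool.and_eq_true, beq_iff_eq] at h
    simp [h.1, pev_zero p h.2]

end

/-- coefficient of the path `l, i` in the product of the generator `i` with the path `l, j` -/
def gp (l i j : ℕ) : List ℤ :=
  if i = j then [-1, -1] else if (i = j + 1 ∧ l ≤ j) ∨ (j = i + 1 ∧ i < l) then [1]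
  else if i = j + 1 ∨ j = i + 1 then [0, 1] else []

/-- entry of a table -/
def ent (C : List (List (List ℤ))) (l j : ℕ) : List ℤ := (C.getD l []).getD j []

/-- table of a function -/
def tab (F : ℕ → ℕ → List ℤ) : List (List (List ℤ)) :=
  [[F 0 0, F 0 1, F 0 2, F 0 3], [F 1 0, F 1 1, F 1 2, F 1 3], [F 2 0, F 2 1, F 2 2, F 2 3],
    [F 3 0, F 3 1, F 3 2, F 3 3]]

lemma ent_tab (F : ℕ → ℕ → List ℤ) {l j : ℕ} (hl : l < 4) (hj : j < 4) :
    ent (tab F) l j = F l j := by
  interval_cases l <;> interval_cases j <;> rfl

/-- multiplication by `1` or by the variable -/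
def sc (b : Bool) (p : List ℤ) : List ℤ := if b then p else 0 :: p

/-- the new part of the row `i` -/
def row (i l : ℕ) (s : List ℤ) (C : List (List (List ℤ))) : List ℤ :=
  padd (if l = i then s else []) (padd (padd (pmul (gp l i 0) (ent C l 0)) (pmul (gp l i 1) (ent C l 1)))
    (padd (pmul (gp l i 2) (ent C l 2)) (pmul (gp l i 3) (ent C l 3))))

/-- one letter -/
def step (x : ℕ × Bool) (S : List ℤ × List (List (List ℤ))) : List ℤ × List (List (List ℤ)) :=
  (sc x.2 S.1, tab fun l j => if j = x.1 then padd (sc x.2 (ent S.2 l j)) (row x.1 l S.1 S.2)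
    else sc x.2 (ent S.2 l j))

/-- a word -/
def run (w : List (ℕ × Bool)) : List ℤ × List (List (List ℤ)) := w.foldr step ([1], [])

/-- the check: all letters are below four and all path coefficients vanish -/
def chk (w : List (ℕ × Bool)) : Bool :=
  w.all (fun x => decide (x.1 < 4)) && (run w).2.all fun r => r.all fun p => p.all (· == 0)

/-- inverse word -/
def inw (w : List (ℕ × Bool)) : List (ℕ × Bool) := (w.map fun x => (x.1, !x.2)).reverse

def w1 : List (ℕ × Bool) :=
  [(2, false), (1, true), (0, true), (0, true), (1, true), (3, true), (3, true), (3, true),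
    (2, true), (1, true)]

def w2 : List (ℕ × Bool) :=
  [(3, false), (2, true), (1, true), (0, false), (0, false), (1, true), (0, true), (0, true),
    (1, true), (1, true), (0, true), (3, true), (3, true), (3, true), (3, true), (3, true)]

def wa : List (ℕ × Bool) := inw w1 ++ [(3, true)] ++ w1

def wb : List (ℕ × Bool) :=
  inw w2 ++ [(3, true), (2, true), (1, true), (0, true), (0, true), (1, true), (2, true),
    (3, true)] ++ w2

/-- the word of Bigelow -/
def psi : List (ℕ × Bool) := wa ++ wb ++ inw wa ++ inw wb

theorem chk_psi : chk psi = true := by decide +kernel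

theorem chk_psi_rev : chk psi.reverse = true := by decide +kernel

theorem cnt_psi : psi.countP (fun x => x.2) = 61 ∧ psi.countP (fun x => !x.2) = 61 := by
  decide +kernel

end Pool.Agent.P.MP_0bb74b_gt.Dep
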