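import Pool.Agent.P.MP_0bb74b_gt.Dep.Level

/-! The iterated commutators act nontrivially on colourings with one marked strand. -/

namespace Pool.Agent.P.MP_0bb74b_gt.Dep

open Sum Function

attribute [local irreducible] psi

section
variable {G G1 G2 : Type} [Group G] [Group G1] [Group G2]

/-- group elements act by conjugation and on markers; markers act trivially -/
def op : G ⊕ G → G ⊕ G → G ⊕ G
  | inl a, inl b => inl (a * b * a⁻¹)
  | inl a, inr x => inr (a * x)
  | inr _, q => q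

/-- the inverse operation -/
def opi : G ⊕ G → G ⊕ G → G ⊕ G
  | inl a, q => op (inl a⁻¹) q
  | inr _, q => q

theorem op_opi (a b : G ⊕ G) : op a (opi a b) = b := by
  rcases a with a | a <;> rcases b with b | b <;> simp [op, opi, mul_assoc]

theorem opi_op (a b : G ⊕ G) : opi a (op a b) = b := by
  rcases a with a | a <;> rcases b with b | b <;> simp [op, opi, mul_assoc]

theorem op_dist (a b c : G ⊕ G) : op (op a b) (op a c) = op a (op b c) := by
  rcases a with a | a <;> rcases b with b | b <;> rcases c with c | c <;> simp [op, mul_assoc]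

/-- the action of a generator -/
def tw (i : ℕ) : Equiv.Perm (ℕ → G ⊕ G) where
  toFun T x := if x = i then op (T i) (T (i + 1)) else if x = i + 1 then T i else T x
  invFun T x := if x = i then T (i + 1) else if x = i + 1 then opi (T (i + 1)) (T i) else T x
  left_inv T := by
    funext x
    by_cases h1 : x = i
    · simp [h1]
    · by_cases h2 : x = i + 1 <;> simp [h1, h2, opi_op]
  right_inv T := by
    funext x
    by_cases h1 : x = i
    · simp [h1, op_opi]
    · by_cases h2 : x = i + 1 <;> simp [h1, h2]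

theorem tw_apply (i : ℕ) (T : ℕ → G ⊕ G) (x : ℕ) :
    tw i T x = if x = i then op (T i) (T (i + 1)) else if x = i + 1 then T i else T x := rfl

theorem tw_inv_apply (i : ℕ) (T : ℕ → G ⊕ G) (x : ℕ) : (tw i)⁻¹ T x =
    if x = i then T (i + 1) else if x = i + 1 then opi (T (i + 1)) (T i) else T x := rfl

theorem tw_far {i j : ℕ} (h : i + 1 < j) : (tw i * tw j : Equiv.Perm (ℕ → G ⊕ G)) = tw j * tw i := by
  ext T x
  simp only [Equiv.Perm.mul_apply, tw_apply]
  grind

theorem tw_adj (i : ℕ) : (tw i * tw (i + 1) * tw i : Equiv.Perm (ℕ → G ⊕ G)) =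
    tw (i + 1) * tw i * tw (i + 1) := by
  ext T x
  simp only [Equiv.Perm.mul_apply, tw_apply]
  have := op_dist (T i) (T (i + 1)) (T (i + 1 + 1))
  grind

/-- the action of words -/
def act : FreeGroup ℕ →* Equiv.Perm (ℕ → G ⊕ G) := FreeGroup.lift tw

@[simp] theorem act_of (i : ℕ) : (act (.of i) : Equiv.Perm (ℕ → G ⊕ G)) = tw i :=
  FreeGroup.lift_apply_of

theorem semi (Φ : (ℕ → G1 ⊕ G1) → ℕ → G ⊕ G) {s t : ℕ}
    (h : ∀ i, s ≤ i → i < t → Semiconj Φ (tw i) (tw i)) {w : FreeGroup ℕ} (hw : w ∈ HH s t) :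
    Semiconj Φ (act (G := G1) w) (act (G := G) w) := by
  induction hw using Subgroup.closure_induction with
  | mem z hz => obtain ⟨i, a, b, rfl⟩ := hz; simpa using h i a b
  | one => simpa using Semiconj.id_right
  | mul _ _ _ _ h1 h2 => simpa only [map_mul, Equiv.Perm.coe_mul] using h1.comp_right h2
  | inv z _ h1 =>
    simp only [map_inv]
    exact h1.inverses_right (act z).right_inv (act z).left_inv

theorem act_out {s t : ℕ} {w : FreeGroup ℕ} (hw : w ∈ HH s t) {x : ℕ} (hx : x < s ∨ t < x) :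
    ∀ T : ℕ → G ⊕ G, act w T x = T x := by
  induction hw using Subgroup.closure_induction with
  | mem z hz =>
    obtain ⟨i, a, b, rfl⟩ := hz
    intro T
    rw [act_of, tw_apply, if_neg (by omega), if_neg (by omega)]
  | one => simp
  | mul _ _ _ _ h1 h2 => intro T; rw [map_mul, Equiv.Perm.mul_apply, h1, h2]
  | inv z _ h1 => intro T; rw [← h1 (act z⁻¹ T), map_inv]; simp

/-- change of the group -/
def hm (ι : G1 →* G) (z : G) : G1 ⊕ G1 → G ⊕ G
  | inl a => inl (ι a)
  | inr y => inr (ι y * z)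

theorem hm_op (ι : G1 →* G) (z : G) (a b : G1 ⊕ G1) :
    hm ι z (op a b) = op (hm ι z a) (hm ι z b) := by
  rcases a with a | a <;> rcases b with b | b <;> simp [op, hm, mul_assoc]

theorem hm_left (ι : G1 →* G) (z : G) {q : G1 ⊕ G1} (h : q.isLeft) : hm ι z q = hm ι 1 q := by
  rcases q with a | a
  · rfl
  · simp at h

theorem hm_isLeft (ι : G1 →* G) (z : G) {q : G1 ⊕ G1} (h : q.isLeft) : (hm ι z q).isLeft := by
  rcases q with a | a
  · rfl
  · simp at h

/-- a colouring with the marker `y` at the place `m` -/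
def Mk (m : ℕ) (T : ℕ → G ⊕ G) (y : G) : Prop := T m = inr y ∧ ∀ i, i ≠ m → (T i).isLeft

/-- two colourings glued at the marked place -/
def glue (ι1 : G1 →* G) (ι2 : G2 →* G) (m : ℕ) (A : ℕ → G1 ⊕ G1) (z : G) (B : ℕ → G2 ⊕ G2) :
    ℕ → G ⊕ G :=
  fun x => if x < m then hm ι1 1 (A x) else if x = m then inr z else hm ι2 1 (B x)

theorem glue_left (ι1 : G1 →* G) (ι2 : G2 →* G) {m : ℕ} {g : FreeGroup ℕ} (hg : g ∈ HH 0 m)
    {A : ℕ → G1 ⊕ G1} {u : G1} (h1 : Mk m A 1) (h2 : Mk m (act g A) u) (z : G)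
    (B : ℕ → G2 ⊕ G2) :
    act g (glue ι1 ι2 m A z B) = glue ι1 ι2 m (act g A) (ι1 u * z) B := by
  have e : ∀ T y, Mk m T y → (fun x => if x ≤ m then hm ι1 z (T x) else hm ι2 1 (B x)) =
      glue ι1 ι2 m T (ι1 y * z) B := fun T y h => by
    funext x
    rcases lt_trichotomy x m with c | rfl | c
    · simp [glue, c, c.le, hm_left ι1 z (h.2 x c.ne)]
    · simp [glue, h.1, hm]
    · simp [glue, c.ne', not_le.2 c, not_lt.2 c.le]
  have s := semi (fun T x => if x ≤ m then hm ι1 z (T x) else hm ι2 1 (B x)) (fun i _ hi T => by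
    funext x
    simp only [tw_apply, if_pos hi.le, if_pos (Nat.succ_le_of_lt hi), ← hm_op]
    grind) hg A
  simp only [e _ _ h1, e _ _ h2, map_one, one_mul] at s
  exact s.symm

theorem glue_right (ι1 : G1 →* G) (ι2 : G2 →* G) {m t : ℕ} {g : FreeGroup ℕ} (hg : g ∈ HH m t)
    {B : ℕ → G2 ⊕ G2} {u : G2} (h1 : Mk m B 1) (h2 : Mk m (act g B) u) (z : G)
    (A : ℕ → G1 ⊕ G1) :
    act g (glue ι1 ι2 m A z B) = glue ι1 ι2 m A (ι2 u * z) (act g B) := by
  have e : ∀ T y, Mk m T y → (fun x => if m ≤ x then hm ι2 z (T x) else hm ι1 1 (A x)) =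
      glue ι1 ι2 m A (ι2 y * z) T := fun T y h => by
    funext x
    rcases lt_trichotomy x m with c | rfl | c
    · simp [glue, c, not_le.2 c]
    · simp [glue, h.1, hm]
    · simp [glue, c.ne', c.le, not_lt.2 c.le, hm_left ι2 z (h.2 x c.ne')]
  have s := semi (fun T x => if m ≤ x then hm ι2 z (T x) else hm ι1 1 (A x)) (fun i hi _ T => by
    funext x
    simp only [tw_apply, if_pos hi, if_pos (Nat.le_succ_of_le hi), ← hm_op]
    grind) hg B
  simp only [e _ _ h1, e _ _ h2, map_one, one_mul] at s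
  exact s.symm

theorem glue_mk (ι1 : G1 →* G) (ι2 : G2 →* G) {m : ℕ} {A : ℕ → G1 ⊕ G1} {B : ℕ → G2 ⊕ G2}
    {a : G1} {b : G2} (h1 : Mk m A a) (h2 : Mk m B b) (z : G) : Mk m (glue ι1 ι2 m A z B) z := by
  refine ⟨by simp [glue], fun i hi => ?_⟩
  unfold glue
  split_ifs
  exacts [hm_isLeft _ _ (h1.2 i hi), hm_isLeft _ _ (h2.2 i hi)]

open Classical in
/-- the first group moves the points of one axis -/
noncomputable def ax1 : G1 →* Equiv.Perm (G1 × G2) :=
  MonoidHom.toHomPerm
    { toFun := fun g p => if p.2 = 1 then (g * p.1, p.2) else p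
      map_one' := by funext p; simp [Function.End.one_def]
      map_mul' := fun g h => by
        funext p
        by_cases c : p.2 = 1 <;> simp [c, mul_assoc, Function.End.mul_def] }

open Classical in
/-- the second group moves the points of the other axis -/
noncomputable def ax2 : G2 →* Equiv.Perm (G1 × G2) :=
  MonoidHom.toHomPerm
    { toFun := fun g p => if p.1 = 1 then (p.1, g * p.2) else p
      map_one' := by funext p; simp [Function.End.one_def]
      map_mul' := fun g h => by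
        funext p
        by_cases c : p.1 = 1 <;> simp [c, mul_assoc, Function.End.mul_def] }

theorem ax_ne {u : G1} {v : G2} (hu : u ≠ 1) (hv : v ≠ 1) :
    (ax2 v * ax1 u : Equiv.Perm (G1 × G2)) ≠ ax1 u * ax2 v := fun e => by
  have := congrArg (fun π : Equiv.Perm (G1 × G2) => π (1, 1)) e
  simp [ax1, ax2, hu, hv] at this

end

/-- the word changes the marker of a colouring -/
def NN (w : FreeGroup ℕ) (m : ℕ) : Prop :=
  ∃ (G : Type) (_ : Group G) (T : ℕ → G ⊕ G) (u : G), u ≠ 1 ∧ Mk m T 1 ∧ Mk m (act w T) u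

theorem NN.comm {g h : FreeGroup ℕ} {m t : ℕ} (hg : g ∈ HH 0 m) (hh : h ∈ HH m t) (a : NN g m)
    (b : NN h m) : NN ((h * g)⁻¹ * (g * h)) m := by
  obtain ⟨G1, _, A, u, hu, a1, a2⟩ := a
  obtain ⟨G2, _, B, v, hv, b1, b2⟩ := b
  refine ⟨Equiv.Perm (G1 × G2), inferInstance, glue ax1 ax2 m A 1 B,
    (ax2 v * ax1 u)⁻¹ * (ax1 u * ax2 v), fun e => ax_ne hu hv (inv_mul_eq_one.1 e),
    glue_mk _ _ a1 b1 _, ?_⟩
  have e : act ((h * g)⁻¹ * (g * h)) (glue ax1 ax2 m A 1 B) =
      glue ax1 ax2 m A ((ax2 v * ax1 u)⁻¹ * (ax1 u * ax2 v)) B := by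
    rw [map_mul, map_inv, Equiv.Perm.mul_apply, Equiv.Perm.inv_eq_iff_eq, map_mul, map_mul,
      Equiv.Perm.mul_apply, Equiv.Perm.mul_apply, glue_right _ _ hh b1 b2, glue_left _ _ hg a1 a2,
      glue_left _ _ hg a1 a2, glue_right _ _ hh b1 b2]
    congr 1
    group
  rw [e]
  exact glue_mk _ _ a1 b1 _

theorem mk_tw {G : Type} [Group G] {m : ℕ} {T : ℕ → G ⊕ G} {y : G} (h : Mk m T y) :
    Mk (m + 1) (tw m T) y := by
  refine ⟨by simp [tw_apply, h.1], fun i hi => ?_⟩
  rw [tw_apply, if_neg hi]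
  split_ifs with c
  · rw [h.1]; exact h.2 _ (by omega)
  · exact h.2 i c

theorem NN.conj {w : FreeGroup ℕ} {m : ℕ} (a : NN w m) :
    NN (.of m * w * (.of m)⁻¹) (m + 1) := by
  obtain ⟨G, _, T, u, hu, a1, a2⟩ := a
  refine ⟨G, inferInstance, tw m T, u, hu, mk_tw a1, ?_⟩
  simpa using mk_tw a2

theorem NN.mv {w : FreeGroup ℕ} {m : ℕ} (a : NN w m) : NN (mv m * w * (mv m)⁻¹) (m + 4) := by
  have := a.conj.conj.conj.conj
  convert this using 1
  rw [Dep.mv]
  group

/-- five colours -/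
abbrev Q5 : Type := (DihedralGroup 3 ⊕ DihedralGroup 3) × (DihedralGroup 3 ⊕ DihedralGroup 3) ×
  (DihedralGroup 3 ⊕ DihedralGroup 3) × (DihedralGroup 3 ⊕ DihedralGroup 3) ×
  (DihedralGroup 3 ⊕ DihedralGroup 3)

/-- one letter on five colours -/
def st5 : ℕ × Bool → Q5 → Q5
  | (0, true), (a, b, c, d, e) => (op a b, a, c, d, e)
  | (1, true), (a, b, c, d, e) => (a, op b c, b, d, e)
  | (2, true), (a, b, c, d, e) => (a, b, op c d, c, e)
  | (_ + 3, true), (a, b, c, d, e) => (a, b, c, op d e, d)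
  | (0, false), (a, b, c, d, e) => (b, opi b a, c, d, e)
  | (1, false), (a, b, c, d, e) => (a, c, opi c b, d, e)
  | (2, false), (a, b, c, d, e) => (a, b, d, opi d c, e)
  | (_ + 3, false), (a, b, c, d, e) => (a, b, c, e, opi e d)

/-- the five colours from the place `m` on -/
def five (m : ℕ) (T : ℕ → DihedralGroup 3 ⊕ DihedralGroup 3) : Q5 :=
  (T m, T (m + 1), T (m + 2), T (m + 3), T (m + 4))

theorem five_wd (m : ℕ) (T : ℕ → DihedralGroup 3 ⊕ DihedralGroup 3) : ∀ w : List (ℕ × Bool),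
    (∀ x ∈ w, x.1 < 4) → five m (act (wd m w) T) = w.foldr st5 (five m T)
  | [], _ => by simp [wd]
  | (i, b) :: w, hw => by
    have ih := five_wd m T w fun z hz => hw z (List.mem_cons_of_mem _ hz)
    have hi : i < 4 := hw _ List.mem_cons_self
    have e : wd m ((i, b) :: w) =
        (if b then FreeGroup.of (m + i) else (FreeGroup.of (m + i))⁻¹) * wd m w := rfl
    rw [e, map_mul, Equiv.Perm.mul_apply, List.foldr_cons, ← ih]
    generalize act (wd m w) T = S
    cases b <;> interval_cases i <;> simp [five, st5, tw_apply, tw_inv_apply, add_assoc]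

open DihedralGroup in
theorem five_psi : psi.foldr st5 (inr 1, inl (r 0), inl (r 1), inl (sr 0), inl (r 0)) =
    (inr (r 2), inl (r 0), inl (r 1), inl (sr 0), inl (r 0)) := by decide +kernel

open DihedralGroup in
theorem NN_psi (m : ℕ) : NN (wd m psi) m := by
  let T : ℕ → DihedralGroup 3 ⊕ DihedralGroup 3 := fun x =>
    if x = m then inr 1 else if x = m + 2 then inl (r 1) else if x = m + 3 then inl (sr 0)
      else inl (r 0)
  have hT : Mk m T 1 := ⟨by simp [T], fun i hi => by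
    simp only [T, if_neg hi]; split_ifs <;> rfl⟩
  have e := five_wd m T psi psi_lt
  have e0 : five m T = (inr 1, inl (r 0), inl (r 1), inl (sr 0), inl (r 0)) := by simp [five, T]
  rw [e0, five_psi] at e
  simp only [five, Prod.mk.injEq] at e
  refine ⟨DihedralGroup 3, inferInstance, T, r 2, by decide, hT, e.1, fun i hi => ?_⟩
  by_cases c : i < m ∨ m + 4 < i
  · rw [act_out (psi_mem m) c]; exact hT.2 i hi
  · obtain rfl | rfl | rfl | rfl : i = m + 1 ∨ i = m + 2 ∨ i = m + 3 ∨ i = m + 4 := by omega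
    · rw [e.2.1]; rfl
    · rw [e.2.2.1]; rfl
    · rw [e.2.2.2.1]; rfl
    · rw [e.2.2.2.2]; rfl

theorem NN_cc : ∀ j, NN (cc j) (4 * j + 4)
  | 0 => (NN_psi 0).mv
  | j + 1 => (NN.comm (cc_mem j) (psi_mem _) (NN_cc j) (NN_psi _)).mv

end Pool.Agent.P.MP_0bb74b_gt.Dep
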