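import Pool.Agent.P.MP_0bb74b_gt.Dep.Alg

/-! The ideal of two cups on five strands lies in the one sided ideals generated by the cups on the
last four strands. -/

namespace Pool.Agent.P.MP_0bb74b_gt.Dep

variable {K R : Type*} [Field K] [Ring R] [Algebra K R]

/-- coset representatives -/
def dd (f : ℕ → R) : ℕ → R
  | 0 => 1
  | j + 1 => dd f j * (1 + f j)

section
variable {y : K} {f : ℕ → R}

theorem dd_comm (h : Rel y f) {l : ℕ} (hl : l < 4) : ∀ j < l, dd f j * f l = f l * dd f j
  | 0, _ => by simp [dd]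
  | j + 1, hj => by
    rw [dd, mul_assoc, add_mul, h.far j l (by omega) hl, mul_add, one_mul, ← mul_assoc,
      dd_comm h hl j (by omega), mul_assoc, ← mul_add, mul_add (dd f j), mul_one]

theorem braid_f (h : Rel y f) {l : ℕ} (hl : l + 1 < 4) :
    (1 + f l) * (1 + f (l + 1)) * f l = f (l + 1) * ((1 + f l) * (1 + f (l + 1))) := by
  have h1 := h.sq l (by omega)
  have h2 := h.sq (l + 1) hl
  have h3 := h.adj l hl
  rw [sub_eq_iff_eq_add] at h3
  simp only [mul_add, add_mul, one_mul, mul_one, ← mul_assoc, h1, h2, h3]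
  module

theorem dd_shift (h : Rel y f) {l : ℕ} : ∀ j, l + 2 ≤ j → j ≤ 4 → dd f j * f l = f (l + 1) * dd f j
  | 0, hj, _ => by omega
  | j + 1, hj, h4 => by
    rcases Nat.eq_or_lt_of_le hj with e | e
    · obtain rfl : j = l + 1 := by omega
      rw [dd, dd, mul_assoc (dd f l), mul_assoc (dd f l), braid_f h (by omega), ← mul_assoc,
        dd_comm h (by omega) l (by omega), mul_assoc]
    · rw [dd, mul_assoc, add_mul, ← h.far l j (by omega) (by omega), mul_add, one_mul, ← mul_assoc,
        dd_shift h j (by omega) (by omega), mul_assoc, ← mul_add, mul_add (dd f j), mul_one]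

end

/-- the right ideal generated by the last three cups -/
def TT (K : Type*) [Field K] [Algebra K R] (f : ℕ → R) : Submodule K R where
  carrier := {x | ∃ a b c, x = f 1 * a + f 2 * b + f 3 * c}
  add_mem' := by
    rintro _ _ ⟨a, b, c, rfl⟩ ⟨a', b', c', rfl⟩
    exact ⟨a + a', b + b', c + c', by simp only [mul_add]; abel⟩
  zero_mem' := ⟨0, 0, 0, by simp⟩
  smul_mem' := by
    rintro r _ ⟨a, b, c, rfl⟩
    exact ⟨r • a, r • b, r • c, by simp only [smul_add, mul_smul_comm]⟩

theorem mem_TT (f : ℕ → R) {i : ℕ} (h1 : 1 ≤ i) (h4 : i < 4) (v : R) : f i * v ∈ TT K f := by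
  interval_cases i
  · exact ⟨v, 0, 0, by simp⟩
  · exact ⟨0, v, 0, by simp⟩
  · exact ⟨0, 0, v, by simp⟩

/-- the left stable part of it -/
def WW (K : Type*) [Field K] [Algebra K R] (f : ℕ → R) : Submodule K R where
  carrier := {x | ∀ j ≤ 4, dd f j * x ∈ TT K f}
  add_mem' := fun ha hb j hj => by rw [mul_add]; exact (TT K f).add_mem (ha j hj) (hb j hj)
  zero_mem' := fun j _ => by rw [mul_zero]; exact (TT K f).zero_mem
  smul_mem' := fun r _ ha j hj => by rw [mul_smul_comm]; exact (TT K f).smul_mem r (ha j hj)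

theorem stab_WW {y : K} {f : ℕ → R} (h : Rel y f) : Stab f (WW K f) := by
  refine ⟨fun l hl x hx j hj => ?_, fun i i' hi h4 v j hj => ?_⟩
  · rcases lt_trichotomy j l with e | rfl | e
    · rw [← mul_assoc, dd_comm h hl j e, mul_assoc]
      exact mem_TT f (by omega) hl _
    · have : dd f j * (f j * x) = dd f (j + 1) * x - dd f j * x := by
        rw [dd]; noncomm_ring
      rw [this]
      exact (TT K f).sub_mem (hx _ hl) (hx _ hj)
    · rcases Nat.eq_or_lt_of_le e with e | e
      · subst e
        have : dd f (l + 1) * (f l * x) = (-y) • (dd f (l + 1) * x - dd f l * x) := by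
          have e1 : dd f (l + 1) * (f l * x) = dd f l * (f l * x) + dd f l * (f l * f l * x) := by
            rw [dd]; noncomm_ring
          have e2 : dd f (l + 1) * x - dd f l * x = dd f l * (f l * x) := by
            rw [dd]; noncomm_ring
          rw [e1, e2, h.sq l hl, smul_mul_assoc, mul_smul_comm]
          module
        rw [this]
        exact (TT K f).smul_mem _ ((TT K f).sub_mem (hx _ hj) (hx _ hl.le))
      · rw [← mul_assoc, dd_shift h j e hj, mul_assoc]
        exact mem_TT f (by omega) (by omega) _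
  · rcases Nat.lt_or_ge j i' with e | e
    · rw [← mul_assoc (f i), h.far i i' hi h4, mul_assoc, ← mul_assoc, dd_comm h h4 j e, mul_assoc]
      exact mem_TT f (by omega) h4 _
    · rw [← mul_assoc, dd_shift h j (by omega) hj, mul_assoc]
      exact mem_TT f (by omega) (by omega) _

theorem left_form {y : K} {f : ℕ → R} (hy : y ≠ 0) (hy1 : -1 - y ≠ 0) (h : Rel y f)
    {w : List (ℕ × Bool)} (hw : chk w = true) : ∃ a b c,
    (w.map (lt y f)).prod - y ^ w.countP (fun x => !x.2) • (1 : R) = f 1 * a + f 2 * b + f 3 * c := by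
  have := chk_mod hy hy1 h (stab_WW h) hw 0 (by omega)
  rwa [dd, one_mul] at this

open MulOpposite in
theorem right_form {y : K} {f : ℕ → R} (hy : y ≠ 0) (hy1 : -1 - y ≠ 0) (h : Rel y f)
    {w : List (ℕ × Bool)} (hw : chk w.reverse = true) : ∃ a b c,
    (w.map (lt y f)).prod - y ^ w.countP (fun x => !x.2) • (1 : R) = a * f 1 + b * f 2 + c * f 3 := by
  have h' : Rel y fun i => op (f i) :=
    ⟨fun i hi => by rw [← op_mul, h.sq i hi, op_smul],
      fun i j hij hj => by rw [← op_mul, ← op_mul, h.far i j hij hj],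
      fun i hi => by
        simp only [← op_mul, ← op_smul, ← op_sub, ← mul_assoc]
        rw [h.adj i hi]⟩
  obtain ⟨a, b, c, e⟩ := left_form hy hy1 h' hw
  refine ⟨unop a, unop b, unop c, ?_⟩
  have e2 := congrArg unop e
  rw [unop_sub, unop_list_prod, List.map_map, ← List.map_reverse, List.reverse_reverse,
    List.countP_reverse] at e2
  exact e2

end Pool.Agent.P.MP_0bb74b_gt.Dep
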